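import Mathlib

/-!
# The one-dimensional integral `∫₀¹ log max(r, u, 1-u) du`
-/

set_option autoImplicit false

open MeasureTheory Set Filter Topology

namespace Pool.Agent.Helper14K9.Asym

noncomputable section

/-- `∫₀¹ log max(r, u, 1-u) du` -/
def mm (r : ℝ) : ℝ := ∫ u in (0:ℝ)..1, Real.log (max r (max u (1 - u)))

lemma half_le (r u : ℝ) : 1 / 2 ≤ max r (max u (1 - u)) := by
  rcases le_total u (1/2) with h | h
  · exact le_max_of_le_right (le_max_of_le_right (by linarith))
  · exact le_max_of_le_right (le_max_of_le_left h)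

lemma cont_max (r : ℝ) : Continuous fun u : ℝ => Real.log (max r (max u (1 - u))) := by
  refine Continuous.log (by fun_prop) fun u => ?_
  have := half_le r u
  positivity

lemma mm_mono {r s : ℝ} (h : r ≤ s) : mm r ≤ mm s := by
  unfold mm
  refine intervalIntegral.integral_mono_on zero_le_one ((cont_max r).intervalIntegrable _ _)
    ((cont_max s).intervalIntegrable _ _) fun u _ => ?_
  have := half_le r u
  exact Real.log_le_log (by linarith) (max_le_max_right _ h)

lemma mm_sub_log {r s : ℝ} (hr : 0 < r) (h : r ≤ s) :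
    mm s - Real.log s ≤ mm r - Real.log r := by
  have hs : 0 < s := hr.trans_le h
  have e : ∀ t : ℝ, mm t - Real.log t =
      ∫ u in (0:ℝ)..1, (Real.log (max t (max u (1 - u))) - Real.log t) := by
    intro t
    rw [intervalIntegral.integral_sub ((cont_max t).intervalIntegrable _ _)
      intervalIntegrable_const]
    simp [mm]
  rw [e, e]
  refine intervalIntegral.integral_mono_on zero_le_one
    (((cont_max s).sub continuous_const).intervalIntegrable _ _)
    (((cont_max r).sub continuous_const).intervalIntegrable _ _) fun u _ => ?_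
  have h1 := half_le r u
  have h2 := half_le s u
  rw [← Real.log_div (by linarith) hs.ne', ← Real.log_div (by linarith) hr.ne']
  refine Real.log_le_log (by positivity) ?_
  rw [div_le_div_iff₀ hs hr]
  set M := max u (1 - u)
  have h3 : s * r ≤ max r M * s := by
    rw [mul_comm]
    exact mul_le_mul_of_nonneg_right (le_max_left _ _) hs.le
  rcases le_total M s with h4 | h4
  · rw [max_eq_left h4]
    exact h3
  · rw [max_eq_right h4]
    have h5 : 0 ≤ M := hs.le.trans h4
    calc M * r ≤ M * s := mul_le_mul_of_nonneg_left h h5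
      _ ≤ max r M * s := mul_le_mul_of_nonneg_right (le_max_right _ _) hs.le

lemma int_log_one {r : ℝ} :
    ∫ u in r..1, Real.log u = r - 1 - r * Real.log r := by
  rw [integral_log]
  simp
  ring

lemma mm_eq {r : ℝ} (hr : 1 / 2 ≤ r) (hr1 : r ≤ 1) : mm r = 2 * r - 2 - Real.log r := by
  have hr0 : 0 < r := by linarith
  unfold mm
  have hi : ∀ a b : ℝ, IntervalIntegrable (fun u : ℝ => Real.log (max r (max u (1 - u))))
      volume a b := fun a b => (cont_max r).intervalIntegrable a b
  rw [← intervalIntegral.integral_add_adjacent_intervals (hi 0 (1 - r)) (hi (1 - r) 1),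
    ← intervalIntegral.integral_add_adjacent_intervals (hi (1 - r) r) (hi r 1)]
  have h1 : ∫ u in (0:ℝ)..(1 - r), Real.log (max r (max u (1 - u))) =
      r - 1 - r * Real.log r := by
    have e1 : ∫ u in (0:ℝ)..(1 - r), Real.log (max r (max u (1 - u))) =
        ∫ u in (0:ℝ)..(1 - r), Real.log (1 - u) := by
      refine intervalIntegral.integral_congr fun u hu => ?_
      rw [uIcc_of_le (by linarith)] at hu
      have h2 : max u (1 - u) = 1 - u := max_eq_right (by linarith [hu.2])
      simp only [h2]
      rw [max_eq_right (by linarith [hu.2])]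
    rw [e1, intervalIntegral.integral_comp_sub_left (fun x => Real.log x) 1]
    have e2 : (1:ℝ) - (1 - r) = r := by ring
    rw [e2, sub_zero]
    exact int_log_one
  have h2 : ∫ u in (1 - r)..r, Real.log (max r (max u (1 - u))) = (2 * r - 1) * Real.log r := by
    have e1 : ∫ u in (1 - r)..r, Real.log (max r (max u (1 - u))) =
        ∫ _u in (1 - r)..r, Real.log r := by
      refine intervalIntegral.integral_congr fun u hu => ?_
      rw [uIcc_of_le (by linarith)] at hu
      have h2 : max u (1 - u) ≤ r := max_le hu.2 (by linarith [hu.1])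
      simp only [max_eq_left h2]
    rw [e1, intervalIntegral.integral_const, smul_eq_mul]
    ring
  have h3 : ∫ u in r..1, Real.log (max r (max u (1 - u))) = r - 1 - r * Real.log r := by
    have e1 : ∫ u in r..1, Real.log (max r (max u (1 - u))) = ∫ u in r..1, Real.log u := by
      refine intervalIntegral.integral_congr fun u hu => ?_
      rw [uIcc_of_le hr1] at hu
      have h2 : max u (1 - u) = u := max_eq_left (by linarith [hu.1])
      simp only [h2]
      rw [max_eq_right hu.1]
    rw [e1]
    exact int_log_one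
  rw [h1, h2, h3]
  ring

lemma mm_half (r : ℝ) (h : r ≤ 1 / 2) : mm r = mm (1 / 2) := by
  unfold mm
  refine intervalIntegral.integral_congr fun u _ => ?_
  have h1 : 1 / 2 ≤ max u (1 - u) := by
    rcases le_total u (1/2) with h | h
    · exact le_max_of_le_right (by linarith)
    · exact le_max_of_le_left h
  simp only [max_eq_right h1, max_eq_right (h.trans h1)]

lemma exp_mm {t : ℝ} (ht1 : t ≤ 1) :
    Real.exp (mm t) = Real.exp (2 * max t (1 / 2) - 2) / max t (1 / 2) := by
  rcases le_total t (1 / 2) with h | h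
  · rw [max_eq_right h, mm_half t h, mm_eq le_rfl (by norm_num), Real.exp_sub,
      Real.exp_log (by norm_num)]
  · rw [max_eq_left h, mm_eq h ht1, Real.exp_sub, Real.exp_log (by linarith)]

/-- the factor -/
def gain (s t : ℝ) : ℝ := Real.exp (2 * max t (1 / 2) - 2) / (s * max t (1 / 2))

lemma gain_eq {s t : ℝ} (hs : 0 < s) (ht1 : t ≤ 1) :
    Real.exp (mm t - Real.log s) = gain s t := by
  unfold gain
  rw [Real.exp_sub, exp_mm ht1, Real.exp_log hs]
  field_simp

lemma gain_ge_exp {r : ℝ} (hr : 0 < r) (hr1 : r ≤ 1) : Real.exp ((1 - r) ^ 2) ≤ gain r r := by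
  rw [← gain_eq hr hr1]
  refine Real.exp_le_exp.2 ?_
  -- `(1-r)^2 ≤ mm r - log r`; for `r ≥ 1/2` this is `2r - 2 - 2 log r`
  have key : ∀ s : ℝ, 0 < s → s ≤ 1 → (1 - s) ^ 2 ≤ 2 * s - 2 - 2 * Real.log s := by
    intro s hs hs1
    have h1 : Real.log s ≤ (s - 1) - (1 - s) ^ 2 / 2 := by
      -- via the series of `log (1 - x)`
      have hx : |1 - s| < 1 := by rw [abs_lt]; constructor <;> linarith
      have h2 := Real.hasSum_pow_div_log_of_abs_lt_one hx
      have h3 : ∑ i ∈ Finset.range 2, (1 - s) ^ (i + 1) / ((i:ℝ) + 1) ≤ -Real.log (1 - (1 - s)) :=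
        sum_le_hasSum _ (fun i _ => by
          have : 0 ≤ 1 - s := by linarith
          positivity) h2
      rw [Finset.sum_range_succ, Finset.sum_range_one] at h3
      norm_num at h3
      linarith
    linarith
  rcases le_total r (1 / 2) with h | h
  · have h1 := mm_sub_log hr h
    have h2 := key (1/2) (by norm_num) (by norm_num)
    rw [mm_half r h] at h1 ⊢
    rw [mm_eq le_rfl (by norm_num)] at h1 ⊢
    -- `log 2 - 1 - log r ≥ (1-r)^2` for `r ≤ 1/2`
    have h3 := key r hr hr1
    have h4 : Real.log r ≤ Real.log (1/2) + (2 * r - 1) := by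
      have h5 := Real.log_le_sub_one_of_pos (show 0 < 2 * r by positivity)
      have h6 : Real.log (2 * r) = Real.log r - Real.log (1/2) := by
        rw [show (2:ℝ) * r = r / (1/2) by ring, Real.log_div hr.ne' (by norm_num)]
      linarith
    nlinarith [h3, h4]
  · rw [mm_eq h hr1]
    have := key r hr hr1
    linarith

lemma gain_one : gain 1 1 = 1 := by
  unfold gain
  norm_num

lemma gain_anti {r s : ℝ} (hr : 0 < r) (h : r ≤ s) (hs : s ≤ 1) : gain s s ≤ gain r r := by
  rw [← gain_eq hr (h.trans hs), ← gain_eq (hr.trans_le h) hs]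
  exact Real.exp_le_exp.2 (mm_sub_log hr h)

lemma gain_mono_right {s t t' : ℝ} (hs : 0 < s) (h : t ≤ t') (ht : t' ≤ 1) :
    gain s t ≤ gain s t' := by
  rw [← gain_eq hs (h.trans ht), ← gain_eq hs ht]
  have := mm_mono h
  gcongr

lemma gain_pos {s t : ℝ} (hs : 0 < s) : 0 < gain s t := by
  unfold gain
  have : 0 < max t (1 / 2) := lt_max_of_lt_right (by norm_num)
  positivity

end

end Pool.Agent.Helper14K9.Asym
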