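import Pool.Agent.Helper14K9.Asym.INCg
import Pool.Agent.Helper14K9.Asym.Gain

/-!
# Mahler's inequality for cones with a remainder
-/

set_option autoImplicit false

open MeasureTheory Set Filter Topology
open scoped ENNReal Pointwise Matrix

namespace Pool.Agent.Helper14K9.Asym

open Pool.Agent.TH537.EQ

noncomputable section

variable {N : ℕ} {C : Set (Fin N → ℝ)} {e c : Fin N → ℝ}

/-- `u^N |T| ≤ |HT u|` -/
lemma HT_ge' (hC : CN C) (hp : Pos C e) {u : ℝ} (hu : 0 ≤ u) :
    u ^ N * volume.real (T C e) ≤ volume.real (HT C e u) := by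
  have h1 : volume.real ((-u) • T C e) = u ^ N * volume.real (T C e) := by
    rw [Measure.real, Measure.real, Measure.addHaar_smul, Module.finrank_pi, Fintype.card_fin,
      ENNReal.toReal_mul, ENNReal.toReal_ofReal (abs_nonneg _), abs_pow, abs_neg,
      abs_of_nonneg hu]
  rw [← h1]
  exact measureReal_mono (subset_union_right.trans (subset_convexHull ℝ _)) (HT_lt_top hC hp u).ne

lemma max_pow_le {a b d J χ : ℝ}
    (h1 : a ^ N * χ ≤ J) (h2 : b ^ N * χ ≤ J) (h3 : d ^ N * χ ≤ J) :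
    (max a (max b d)) ^ N * χ ≤ J := by
  rcases max_choice a (max b d) with h | h
  · rwa [h]
  · rw [h]
    rcases max_choice b d with h' | h' <;> rwa [h']

lemma one_le_VJ (hC : CN C) (hp : Pos C e) (hc : c ∈ interior C) {u : ℝ} (h0 : 0 < u)
    (h1 : u < 1) :
    1 ≤ volume.real (OI (dl C) e) * (N.factorial * volume.real (HT C e u)) := by
  obtain ⟨hC', hp', he', hdd⟩ := Pool.Agent.TH388.EQ.t_DU N C e c hC hp hc
  have := Pool.Agent.TH388.EQ.t_E2C N (dl C) c e u hC' hp' he' h0 h1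
  rw [hdd] at this
  linarith

lemma V'_pos (hC : CN C) (hp : Pos C e) (hc : c ∈ interior C) :
    0 < volume.real (OI (dl C) e) := by
  have h := one_le_VJ hC hp hc (u := 1 / 2) (by norm_num) (by norm_num)
  by_contra hcon
  push Not at hcon
  have h2 : (0:ℝ) ≤ N.factorial * volume.real (HT C e (1 / 2)) := by positivity
  nlinarith

/-- one side: `N^N V e^{N m(σ)} ≤ χ` if `σ^N χ V' ≤ 1` -/
theorem side (hN : 1 ≤ N) (hC : CN C) (hp : Pos C e) (hc : c ∈ interior C) (hce : c ⬝ᵥ e = 1)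
    {σ : ℝ} (_hσ : 0 ≤ σ)
    (h : σ ^ N * (volume.real (OI (dl C) e) * (N.factorial * volume.real (T C e))) ≤ 1) :
    (N : ℝ) ^ N * volume.real (OI C c) * Real.exp (N * mm σ) ≤
      N.factorial * volume.real (T C e) := by
  set χ : ℝ := N.factorial * volume.real (T C e) with hχ
  have hχ0 : 0 < χ := mul_pos (by positivity) (T_pos hC hp)
  have hV' := V'_pos hC hp hc
  have hg : Continuous fun u : ℝ => Real.log χ + N * Real.log (max σ (max u (1 - u))) :=
    continuous_const.add (continuous_const.mul (cont_max σ))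
  have h1 := incg hN hC hp hc hce hg (fun u h0 h1 => by
    have hh := half_le σ u
    have hm : 0 < max σ (max u (1 - u)) := by linarith
    rw [Real.exp_add, Real.exp_log hχ0, mul_comm (N : ℝ), Real.exp_mul, Real.exp_log hm,
      Real.rpow_natCast, mul_comm]
    refine max_pow_le ?_ ?_ ?_
    · have h2 := one_le_VJ hC hp hc h0 h1
      have h3 : σ ^ N * χ ≤ (volume.real (OI (dl C) e))⁻¹ := by
        rw [inv_eq_one_div, le_div_iff₀ hV']
        calc σ ^ N * χ * volume.real (OI (dl C) e) =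
            σ ^ N * (volume.real (OI (dl C) e) * χ) := by ring
          _ ≤ 1 := h
      refine h3.trans ?_
      rw [inv_le_iff_one_le_mul₀ hV', mul_comm]
      exact h2
    · rw [hχ]
      have := HT_ge' hC hp h0.le
      calc u ^ N * (N.factorial * volume.real (T C e)) =
          N.factorial * (u ^ N * volume.real (T C e)) := by ring
        _ ≤ _ := by gcongr
    · rw [hχ]
      have := HT_ge hC hp h1.le
      calc (1 - u) ^ N * (N.factorial * volume.real (T C e)) =
          N.factorial * ((1 - u) ^ N * volume.real (T C e)) := by ring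
        _ ≤ _ := by gcongr)
  have e1 : ∫ u in (0:ℝ)..1, (Real.log χ + N * Real.log (max σ (max u (1 - u)))) =
      Real.log χ + N * mm σ := by
    rw [intervalIntegral.integral_add intervalIntegrable_const
      (((cont_max σ).intervalIntegrable _ _).const_mul _), intervalIntegral.integral_const,
      intervalIntegral.integral_const_mul]
    simp [mm]
  rw [e1, Real.exp_add, Real.exp_log hχ0] at h1
  have h2 : χ * ((N : ℝ) ^ N * volume.real (OI C c) * Real.exp (N * mm σ)) ≤ χ * χ := by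
    calc _ = (N : ℝ) ^ N * (volume.real (OI C c) * (χ * Real.exp (N * mm σ))) := by ring
      _ ≤ χ ^ 2 := h1
      _ = _ := by ring
  exact le_of_mul_le_mul_left h2 hχ0

/-- the number `σ` with `σ^N A = 1` -/
lemma exists_root (hN : 1 ≤ N) {A : ℝ} (hA : 0 < A) : ∃ σ : ℝ, 0 < σ ∧ σ ^ N * A = 1 := by
  refine ⟨(A⁻¹) ^ ((N:ℝ)⁻¹), Real.rpow_pos_of_pos (inv_pos.2 hA) _, ?_⟩
  rw [Real.rpow_inv_natCast_pow (inv_pos.2 hA).le (by omega), inv_mul_cancel₀ hA.ne']

/-- **Mahler's inequality for cones with a remainder** -/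
theorem cone_gain (hN : 1 ≤ N) (hC : CN C) (hp : Pos C e) (hc : c ∈ interior C)
    (hce : c ⬝ᵥ e = 1) {σ ρ : ℝ} (hσ : 0 < σ) (hρ : 0 < ρ)
    (hσ1 : σ ^ N * (volume.real (OI (dl C) e) * (N.factorial * volume.real (T C e))) = 1)
    (hρ1 : ρ ^ N * (volume.real (OI C c) * (N.factorial * volume.real (T (dl C) c))) = 1) :
    (N : ℝ) ^ N * Real.exp (N * (mm (max σ ρ) - Real.log (min σ ρ))) ≤
      (N.factorial * volume.real (T C e)) * (N.factorial * volume.real (T (dl C) c)) := by
  obtain ⟨hC', hp', he', hdd⟩ := Pool.Agent.TH388.EQ.t_DU N C e c hC hp hc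
  have hec : e ⬝ᵥ c = 1 := by rw [dotProduct_comm]; exact hce
  have hV' := V'_pos hC hp hc
  have hV := V'_pos hC' hp' he'
  rw [hdd] at hV
  set V : ℝ := volume.real (OI C c) with hVd
  set V' : ℝ := volume.real (OI (dl C) e) with hV'd
  set χ : ℝ := N.factorial * volume.real (T C e) with hχ
  set χ' : ℝ := N.factorial * volume.real (T (dl C) c) with hχ'
  have hχ0 : 0 < χ := mul_pos (by positivity) (T_pos hC hp)
  have hχ'0 : 0 < χ' := mul_pos (by positivity) (T_pos hC' hp')
  have s1 := side hN hC hp hc hce hσ.le hσ1.le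
  have s2 := side hN hC' hp' he' hec hρ.le (by rw [hdd]; exact hρ1.le)
  rw [← hVd, ← hχ] at s1
  rw [← hV'd, ← hχ'] at s2
  -- `N^N exp(N (mm σ - log ρ)) ≤ χ χ'`
  have hexp : ∀ a : ℝ, 0 < a → ∀ b : ℝ, Real.exp (N * (b - Real.log a)) * a ^ N =
      Real.exp (N * b) := by
    intro a ha b
    have h1 : a ^ N = Real.exp (N * Real.log a) := by
      rw [Real.exp_nat_mul, Real.exp_log ha]
    rw [h1, ← Real.exp_add]
    congr 1
    ring
  have t1 : (N : ℝ) ^ N * Real.exp (N * (mm σ - Real.log ρ)) ≤ χ * χ' := by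
    have h1 := mul_le_mul_of_nonneg_right s1 hχ'0.le
    calc (N : ℝ) ^ N * Real.exp (N * (mm σ - Real.log ρ)) =
        (N : ℝ) ^ N * Real.exp (N * (mm σ - Real.log ρ)) * (ρ ^ N * (V * χ')) := by
          rw [hρ1, mul_one]
      _ = (N : ℝ) ^ N * (Real.exp (N * (mm σ - Real.log ρ)) * ρ ^ N) * (V * χ') := by ring
      _ = (N : ℝ) ^ N * V * Real.exp (N * mm σ) * χ' := by rw [hexp ρ hρ]; ring
      _ ≤ _ := h1
  have t2 : (N : ℝ) ^ N * Real.exp (N * (mm ρ - Real.log σ)) ≤ χ * χ' := by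
    have h1 := mul_le_mul_of_nonneg_right s2 hχ0.le
    calc (N : ℝ) ^ N * Real.exp (N * (mm ρ - Real.log σ)) =
        (N : ℝ) ^ N * Real.exp (N * (mm ρ - Real.log σ)) * (σ ^ N * (V' * χ)) := by
          rw [hσ1, mul_one]
      _ = (N : ℝ) ^ N * (Real.exp (N * (mm ρ - Real.log σ)) * σ ^ N) * (V' * χ) := by ring
      _ = (N : ℝ) ^ N * V' * Real.exp (N * mm ρ) * χ := by rw [hexp σ hσ]; ring
      _ ≤ χ' * χ := h1
      _ = _ := mul_comm _ _
  rcases le_total σ ρ with hsr | hsr
  · rwa [max_eq_right hsr, min_eq_left hsr]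
  · rwa [max_eq_left hsr, min_eq_right hsr]

end

end Pool.Agent.Helper14K9.Asym
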