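import Pool.Agent.TH251.MP.INB
import Pool.Agent.TH264.MP.Step
import Pool.Agent.TH264.MP.PLN

/-!
# The averaged inequality for bodies, integral form
-/

set_option autoImplicit false

open MeasureTheory Set Filter Topology
open scoped ENNReal Pointwise

namespace Pool.Agent.Helper14K9.Asym

open Pool.Agent.TH251.MP H801NS

noncomputable section

variable {m : ℕ} {K : Set (Fin m → ℝ)}

lemma int_low' {φ : ℝ → ℝ} (hφ : Continuous φ) {x y : ℝ} (hx : 0 < x) (hxy : x ≤ y) (hy : y < 1)
    {A B : Set (Fin m → ℝ)}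
    (hA : H801NS.NB A) (hB : H801NS.NB B) (h : ∀ z ∈ Ioo x y, φ z - m * Real.log z ≤ FF A B z) :
    (∫ z in x..y, φ z) - m * (y * Real.log y - x * Real.log x - y + x) ≤
      ∫ z in x..y, FF A B z := by
  have h0 : (0:ℝ) ∉ uIcc x y := by
    rw [uIcc_of_le hxy]
    exact fun h => absurd h.1 (not_le.2 hx)
  have hφi : IntervalIntegrable φ volume x y := hφ.intervalIntegrable x y
  have hI : IntervalIntegrable (fun z => φ z - m * Real.log z) volume x y :=
    hφi.sub ((intervalIntegral.intervalIntegrable_log h0).const_mul _)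
  have h1 := intervalIntegral.integral_mono_on_of_le_Ioo hxy hI (FF_int hA hB hx hxy hy) h
  refine le_trans (le_of_eq ?_) h1
  rw [intervalIntegral.integral_sub hφi
    ((intervalIntegral.intervalIntegrable_log h0).const_mul _),
    intervalIntegral.integral_const_mul, integral_log]

/-- the averaged inequality, integral form -/
theorem inbg (hK0 : Pool.Agent.TH537.EQ.NB K) {g : ℝ → ℝ} (hg : Continuous g)
    (hgu : ∀ u : ℝ, 0 < u → u < 1 → Real.exp (g u) ≤ volume.real (Pool.Agent.TH537.EQ.HU K u)) :
    volume.real (Pool.Agent.TH537.EQ.HH K) * Real.exp (∫ u in (0:ℝ)..1, g u) ≤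
      Real.exp (-m) * volume.real K ^ 2 := by
  have hK : H801NS.NB K := ⟨hK0.comp, hK0.conv, hK0.zero⟩
  have hK' := nb_neg hK
  have hF : (0 : ℝ) < m.factorial := by positivity
  have hVK := VV_pos hK
  have hVn : VV (-K) = VV K := by
    unfold VV
    rw [vol_neg]
  -- lower bounds for `F`
  have hlow : ∀ (s : ℝ), 0 < s → ∀ z ∈ Ioo (0:ℝ) 1,
      s ≤ volume.real (Pool.Agent.TH537.EQ.HU K (1 - z)) →
      Real.log (m.factorial * s) - m * Real.log z ≤ FF (-K) K z := by
    intro s hs z hz hsv
    have hc := inv_sub_pos hz.1 hz.2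
    have e1 := hul_eq K hc
    have e2 : (z⁻¹ - 1) / (1 + (z⁻¹ - 1)) = 1 - z := by
      have := hz.1.ne'
      field_simp
      ring
    have e3 : (1 + (z⁻¹ - 1))⁻¹ = z := by rw [add_sub_cancel, inv_inv]
    rw [e2, e3] at e1
    unfold Pool.Agent.TH537.EQ.HU at hsv
    rw [e1, vol_smul _ hz.1] at hsv
    unfold FF VV
    have hv := vol_pos (hul_nb hK' hK (z⁻¹ - 1))
    have h3 : m.factorial * s ≤ z ^ m * (m.factorial * volume.real (hul (-K) K (z⁻¹ - 1))) := by
      nlinarith [mul_le_mul_of_nonneg_left hsv hF.le]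
    have hz0 : 0 < z := hz.1
    have h4 := Real.log_le_log (by positivity) h3
    rw [Real.log_mul (pow_pos hz0 m).ne' (by positivity), Real.log_pow] at h4
    linarith
  set φ : ℝ → ℝ := fun z => Real.log m.factorial + g (1 - z) with hφd
  have hφ : Continuous φ := by fun_prop
  have hlow' : ∀ z ∈ Ioo (0:ℝ) 1, φ z - m * Real.log z ≤ FF (-K) K z := by
    intro z hz
    have h := hlow (Real.exp (g (1 - z))) (Real.exp_pos _) z hz
      (hgu (1 - z) (by linarith [hz.2]) (by linarith [hz.1]))
    rwa [Real.log_mul hF.ne' (Real.exp_pos _).ne', Real.log_exp] at h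
  have key : ∀ s : ℝ, 0 < s → s < 1 / 2 → Real.log (WW (-K) K) + (∫ z in s..(1 - s), φ z)
      - m * ((1 - s) * Real.log (1 - s) - s * Real.log s - (1 - s) + s) ≤
      (1 - s) * Real.log (VV K) + m * (s * Real.log s) + (1 - s) * Real.log (VV K) := by
    intro s hs0 hst
    have h3 := pair_int Pool.Agent.TH264.MP.step Pool.Agent.TH264.MP.pln hK' hK hs0
      (by linarith : s < 1 - s) (by linarith)
    have h4 := int_low' hφ hs0 (by linarith : s ≤ 1 - s) (by linarith) hK' hK (fun z hz =>
      hlow' z ⟨by linarith [hz.1], by linarith [hz.2]⟩)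
    have h6 : (1 - s) * (m * Real.log (1 - s)) ≤ 0 := by
      have : Real.log (1 - s) ≤ 0 := Real.log_nonpos (by linarith) (by linarith)
      exact mul_nonpos_of_nonneg_of_nonpos (by linarith)
        (mul_nonpos_of_nonneg_of_nonpos (by positivity) this)
    rw [hVn, mul_add] at h3
    linarith
  -- the limit `s → 0`
  have hcI : Continuous fun s : ℝ => ∫ z in s..(1 - s), φ z := by
    have h1 : ∀ s : ℝ, ∫ z in s..(1 - s), φ z = (∫ z in (0:ℝ)..(1 - s), φ z) -
        ∫ z in (0:ℝ)..s, φ z := by
      intro s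
      rw [intervalIntegral.integral_interval_sub_left (hφ.intervalIntegrable _ _)
        (hφ.intervalIntegrable _ _)]
    simp_rw [h1]
    have h2 : Continuous fun s : ℝ => ∫ z in (0:ℝ)..s, φ z :=
      intervalIntegral.continuous_primitive (fun a b => hφ.intervalIntegrable a b) 0
    exact (h2.comp (continuous_const.sub continuous_id)).sub h2
  have hc1 : Continuous fun s : ℝ => Real.log (WW (-K) K) + (∫ z in s..(1 - s), φ z)
      - m * ((1 - s) * Real.log (1 - s) - s * Real.log s - (1 - s) + s) := by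
    have h3 : Continuous fun s : ℝ => (1 - s) * Real.log (1 - s) :=
      Real.continuous_mul_log.comp (continuous_const.sub continuous_id)
    have h4 := Real.continuous_mul_log
    fun_prop
  have hc2 : Continuous fun s : ℝ =>
      (1 - s) * Real.log (VV K) + m * (s * Real.log s) + (1 - s) * Real.log (VV K) := by
    have h4 := Real.continuous_mul_log
    fun_prop
  have hfin := le_of_tendsto_of_tendsto (b := 𝓝[>] (0:ℝ))
    ((hc1.tendsto 0).mono_left nhdsWithin_le_nhds) ((hc2.tendsto 0).mono_left nhdsWithin_le_nhds) (by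
      filter_upwards [Ioo_mem_nhdsGT (show (0:ℝ) < 1 / 2 by norm_num)] with s hs
      exact key s hs.1 hs.2)
  simp only [sub_zero, one_mul, Real.log_one, zero_mul, mul_zero, add_zero, zero_sub] at hfin
  have hint : ∫ z in (0:ℝ)..1, φ z = Real.log m.factorial + ∫ u in (0:ℝ)..1, g u := by
    have e1 : ∫ z in (0:ℝ)..1, g (1 - z) = ∫ u in (0:ℝ)..1, g u := by
      rw [intervalIntegral.integral_comp_sub_left (fun x => g x) 1]
      norm_num
    have e2 : ∫ z in (0:ℝ)..1, φ z = (∫ z in (0:ℝ)..1, Real.log m.factorial) +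
        ∫ z in (0:ℝ)..1, g (1 - z) := by
      refine intervalIntegral.integral_add ?_ ?_
      · exact intervalIntegrable_const
      · exact (hg.comp (continuous_const.sub continuous_id)).intervalIntegrable _ _
    rw [e2, e1, intervalIntegral.integral_const]
    norm_num
  rw [hint] at hfin
  have hWH := WW_ge_HH hK
  have hHH := VV_pos (nb_HH hK)
  have h7 := Real.log_le_log hHH hWH
  have h8 : Real.log (VV (Pool.Agent.TH537.EQ.HH K) * (m.factorial *
      Real.exp (∫ u in (0:ℝ)..1, g u))) ≤ Real.log (Real.exp (-m) * VV K ^ 2) := by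
    rw [Real.log_mul hHH.ne' (by positivity), Real.log_mul (by positivity) (Real.exp_pos _).ne',
      Real.log_exp,
      Real.log_mul (Real.exp_pos _).ne' (by positivity), Real.log_exp, Real.log_pow]
    push_cast
    linarith
  have h9 := (Real.log_le_log_iff (by positivity) (by positivity)).1 h8
  unfold VV at h9
  have h10 : (m.factorial : ℝ) ^ 2 * (volume.real (Pool.Agent.TH537.EQ.HH K) *
      Real.exp (∫ u in (0:ℝ)..1, g u)) ≤
      (m.factorial : ℝ) ^ 2 * (Real.exp (-m) * volume.real K ^ 2) := by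
    nlinarith [h9]
  exact le_of_mul_le_mul_left h10 (by positivity)

end

end Pool.Agent.Helper14K9.Asym
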