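import Pool.Agent.Helper14K9.Asym.INBg
import Pool.Agent.TH537.EQ.Main

/-!
# The averaged inequality for cones, integral form
-/

set_option autoImplicit false

open MeasureTheory Set Filter Topology
open scoped ENNReal Pointwise Matrix

namespace Pool.Agent.Helper14K9.Asym

open Pool.Agent.TH537.EQ

/-- the averaged inequality for cones, integral form -/
theorem incg {N : ℕ} {C : Set (Fin N → ℝ)} {e c : Fin N → ℝ} (hN : 1 ≤ N) (hC : CN C)
    (hp : Pos C e) (hc : c ∈ interior C) (hce : c ⬝ᵥ e = 1) {g : ℝ → ℝ} (hg : Continuous g)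
    (hgu : ∀ u : ℝ, 0 < u → u < 1 → Real.exp (g u) ≤ N.factorial * volume.real (HT C e u)) :
    (N : ℝ) ^ N * (volume.real (OI C c) * Real.exp (∫ u in (0:ℝ)..1, g u)) ≤
      (N.factorial * volume.real (T C e)) ^ 2 := by
  set V : ℝ := volume.real (OI C c) with hV
  set χ : ℝ := N.factorial * volume.real (T C e) with hχ
  have hV0 : 0 ≤ V := measureReal_nonneg
  have hχ0 : 0 ≤ χ := by positivity
  set G : ℝ := Real.exp (∫ u in (0:ℝ)..1, g u) with hG
  have hG0 : 0 < G := Real.exp_pos _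
  have hNR : (1 : ℝ) ≤ N := by exact_mod_cast hN
  -- the key inequality for the powers
  have key : ∀ m : ℕ, 1 ≤ m → ((N : ℝ) ^ N * (V * G)) ^ m ≤
      (Real.exp 1 * ((m : ℝ) * N) ^ 2) * (χ ^ 2) ^ m := by
    intro m hm
    have hmR : (1 : ℝ) ≤ m := by exact_mod_cast hm
    have hm0 : (0 : ℝ) < m := by linarith
    obtain ⟨k, hk⟩ : ∃ k, m * N = k + 1 := ⟨m * N - 1, by
      have : 1 ≤ m * N := Nat.mul_pos hm hN
      omega⟩
    have hpow : ∀ M : ℕ, M = m * N → ∃ (D : Set (Fin M → ℝ)) (f d : Fin M → ℝ), CN D ∧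
        Pos D f ∧ d ∈ interior D ∧ d ⬝ᵥ f = m * (c ⬝ᵥ e) ∧
        volume.real (OI D d) = volume.real (OI C c) ^ m ∧
        M.factorial * volume.real (T D f) = (N.factorial * volume.real (T C e)) ^ m ∧
        ∀ u : ℝ, 0 ≤ u → u ≤ 1 →
          M.factorial * volume.real (HT D f u) = (N.factorial * volume.real (HT C e u)) ^ m := by
      rintro M rfl
      exact Pool.Agent.TH879.EQ.t_POW N m C e c hC hp hc
    obtain ⟨D, f, d, hD, hDf, hd, hdf, hDV, hDT, hDH⟩ := hpow (k + 1) hk.symm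
    rw [hce, mul_one] at hdf
    set d' := (m : ℝ)⁻¹ • d with hd'
    have hd'i : d' ∈ interior D := hD.smul_interior (inv_pos.2 hm0) hd
    have hd'f : d' ⬝ᵥ f = 1 := by
      rw [hd', smul_dotProduct, hdf, smul_eq_mul, inv_mul_cancel₀ hm0.ne']
    obtain ⟨K, δ, hK, hδ, hK1, hK2, hK3⟩ := Pool.Agent.TH909.EQ.t_SEC k D f d' hD hDf hd'i hd'f
    rw [hd', vol_OI_smul hD (inv_pos.2 hm0), hDV, ← hV] at hK1
    rw [← hχ] at hDT
    set F : ℝ := ((k + 1).factorial : ℝ) with hF
    have hF0 : 0 < F := by rw [hF]; positivity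
    have hFd : 0 < F * δ := by positivity
    have hKv : volume.real K = (k + 1) * χ ^ m / (F * δ) := by
      rw [eq_div_iff (by positivity)]
      calc volume.real K * (F * δ) = F * (δ * volume.real K) := by ring
        _ = F * ((k + 1) * volume.real (T D f)) := by rw [hK2]
        _ = (k + 1) * (F * volume.real (T D f)) := by ring
        _ = _ := by rw [hDT]
    have hHU : ∀ u : ℝ, 0 ≤ u → u ≤ 1 →
        (N.factorial * volume.real (HT C e u)) ^ m / (F * δ) ≤ volume.real (HU K u) := by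
      intro u hu0 hu1
      rw [div_le_iff₀ (by positivity), ← hDH u hu0 hu1]
      calc F * volume.real (HT D f u) ≤ F * (δ * volume.real (HU K u)) := by
            gcongr; exact hK3 u hu0 hu1
        _ = _ := by ring
    have h4 := inbg hK (g := fun u => m * g u - Real.log (F * δ)) (by fun_prop)
      (fun u hu0 hu1 => by
        refine le_trans ?_ (hHU u hu0.le hu1.le)
        rw [Real.exp_sub, Real.exp_log hFd, mul_comm, Real.exp_mul, Real.rpow_natCast]
        gcongr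
        exact hgu u hu0 hu1)
    have e1 : Real.exp (∫ u in (0:ℝ)..1, ((m : ℝ) * g u - Real.log (F * δ))) =
        G ^ m / (F * δ) := by
      rw [intervalIntegral.integral_sub ((hg.intervalIntegrable _ _).const_mul _)
        intervalIntegrable_const, intervalIntegral.integral_const,
        intervalIntegral.integral_const_mul, Real.exp_sub]
      simp only [sub_zero, one_smul]
      rw [Real.exp_log hFd, mul_comm, Real.exp_mul, Real.rpow_natCast]
    rw [e1, hKv] at h4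
    have h5 : ((m : ℝ)⁻¹) ^ (k + 1) * V ^ m * (G ^ m / (F * δ)) ≤
        δ * (Real.exp (-k) * ((k + 1) * χ ^ m / (F * δ)) ^ 2) := by
      calc ((m : ℝ)⁻¹) ^ (k + 1) * V ^ m * (G ^ m / (F * δ))
          ≤ (δ * volume.real (HH K)) * (G ^ m / (F * δ)) := by gcongr
        _ = δ * (volume.real (HH K) * (G ^ m / (F * δ))) := by ring
        _ ≤ _ := by gcongr
    have h6 : (V * G) ^ m * F ≤
        Real.exp (-k) * (((k : ℝ) + 1) ^ 2 * (χ ^ 2) ^ m) * (m : ℝ) ^ (k + 1) := by
      have h7 := mul_le_mul_of_nonneg_left h5 (show (0:ℝ) ≤ (m : ℝ) ^ (k + 1) * (F ^ 2 * δ) by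
        positivity)
      have l1 : (m : ℝ) ^ (k + 1) * (F ^ 2 * δ) *
          (((m : ℝ)⁻¹) ^ (k + 1) * V ^ m * (G ^ m / (F * δ))) = (V * G) ^ m * F := by
        rw [inv_pow, mul_pow V G m]
        field_simp
      have l2 : (m : ℝ) ^ (k + 1) * (F ^ 2 * δ) *
          (δ * (Real.exp (-k) * ((k + 1) * χ ^ m / (F * δ)) ^ 2)) =
          Real.exp (-k) * (((k : ℝ) + 1) ^ 2 * (χ ^ 2) ^ m) * (m : ℝ) ^ (k + 1) := by
        rw [← pow_mul, mul_comm 2 m, pow_mul χ m 2]
        field_simp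
      rwa [l1, l2] at h7
    have h8 := fact_ge (k + 1)
    rw [← hF] at h8
    have hkR : ((k : ℝ) + 1) = m * N := by exact_mod_cast hk.symm
    have h9 : (V * G) ^ m * (((k + 1 : ℕ) : ℝ) ^ (k + 1) * Real.exp (-((k + 1 : ℕ) : ℝ))) ≤
        Real.exp (-k) * (((k : ℝ) + 1) ^ 2 * (χ ^ 2) ^ m) * (m : ℝ) ^ (k + 1) :=
      le_trans (by gcongr) h6
    have e2 : Real.exp (-k) = Real.exp 1 * Real.exp (-((k + 1 : ℕ) : ℝ)) := by
      rw [← Real.exp_add]; congr 1; push_cast; ring
    have e3 : (((k + 1 : ℕ) : ℝ)) ^ (k + 1) = (m : ℝ) ^ (k + 1) * ((N : ℝ) ^ N) ^ m := by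
      have : (((k + 1 : ℕ) : ℝ)) = m * N := by push_cast; exact hkR
      rw [this, mul_pow, ← pow_mul, ← hk, mul_comm N m]
    rw [e2, e3] at h9
    have hpos : 0 < (m : ℝ) ^ (k + 1) * Real.exp (-((k + 1 : ℕ) : ℝ)) := by positivity
    have h10 : (m : ℝ) ^ (k + 1) * Real.exp (-((k + 1 : ℕ) : ℝ)) *
        (((N : ℝ) ^ N * (V * G)) ^ m) ≤ (m : ℝ) ^ (k + 1) * Real.exp (-((k + 1 : ℕ) : ℝ)) *
        (Real.exp 1 * ((k : ℝ) + 1) ^ 2 * (χ ^ 2) ^ m) := by
      calc _ = (V * G) ^ m * ((m : ℝ) ^ (k + 1) * ((N : ℝ) ^ N) ^ m *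
            Real.exp (-((k + 1 : ℕ) : ℝ))) := by rw [mul_pow]; ring
        _ ≤ _ := h9
        _ = _ := by ring
    have h11 := le_of_mul_le_mul_left h10 hpos
    refine h11.trans ?_
    rw [hkR]
  -- conclusion
  rcases hχ0.eq_or_lt with hz | hz
  · have := key 1 le_rfl
    rw [← hz] at this ⊢
    simpa using this
  · have hx : (N : ℝ) ^ N * (V * G) / χ ^ 2 ≤ 1 := by
      refine le_one_of_pow_le (A := Real.exp 1 * (N : ℝ) ^ 2) (B := 2)
        fun m hm => ?_
      rw [div_pow, div_le_iff₀ (by positivity)]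
      refine (key m hm).trans (le_of_eq ?_)
      rw [mul_pow]
      ring
    rwa [div_le_one (by positivity)] at hx

end Pool.Agent.Helper14K9.Asym
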